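import Pool.Agent.V11206.BFin

/-!
Ribbon genus and slice genus. The movies here go from the link into the 4-ball, so that births of
components are the local maxima of the distance from the centre of the 4-ball, and the saddles which
cut a component into two components bounding the same piece of the remaining surface (`handle`) are
counted by the genus. Every crossing belongs to a double arc of the projection (a component of the
set of double points which are not triple points), named by its colour. Six double arcs end at a
triple point, if an arc both whose ends are there counts twice.
-/

namespace Pool.Agent.Results.MP_177a0e_gt.ArcBlocks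

open Pool.Agent.Y468.SR Pool.Agent.Y874.TP Pool.Agent.V11206

/-- `GMovie g n D D'`: a movie from the classical link `D` to the classical link `D'` with `g` handles
and `n` births. Thus `GMovie g n [(w, 0)] []` says that the knot with Gauss code `w` bounds a surface
of genus `g` in the 4-ball with `n` local maxima of the distance from the centre, so that it is a
ribbon surface of genus `g` if `n = 0`. -/
inductive GMovie : ℕ → ℕ → Code → Code → Prop
  | refl (D : Code) (h : Classical D) : GMovie 0 0 D D
  | step {g n : ℕ} {D D' E : Code} (h : Classical D) (hs : Step true false D D')
      (hm : GMovie g n D' E) : GMovie g n D E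
  | birth {g n : ℕ} {D E : Code} (h : Classical D) (b : ℕ) (hb : ∃ C ∈ D, C.2 = b)
      (hm : GMovie g n (([], b) :: D) E) : GMovie g (n + 1) D E
  | handle {g n : ℕ} {R E : Code} (x y : List Pass) (b : ℕ) (h : Classical ((x ++ y, b) :: R))
      (hm : GMovie g n ((x, b) :: (y, b) :: R) E) : GMovie (g + 1) n ((x ++ y, b) :: R) E

theorem GMovie.of_movie {g n : ℕ} {D D' E : Code} (h : Movie true false D D')
    (hm : GMovie g n D' E) : GMovie g n D E := by
  induction h using Relation.ReflTransGen.head_induction_on with
  | refl => exact hm
  | head h _ ih => exact ih.step h.1 h.2.2

theorem classical_perm {D D' : Code} (h : D.Perm D') (hD : Classical D) : Classical D' := by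
  have hp : (passes D).Perm (passes D') := h.flatMap_right _
  refine ⟨⟨fun p hm => hp.mem_iff.1 (hD.1.1 p (hp.mem_iff.2 hm)),
    (hp.map _).nodup_iff.1 hD.1.2⟩, fun back front h1 h2 => ?_⟩
  obtain ⟨u, h3, h4⟩ := hD.2 back front (fun C hC => h1 C (h.mem_iff.1 hC))
    (fun p hm => h2 p (hp.mem_iff.1 hm))
  exact ⟨u, fun C hC => h3 C (h.mem_iff.2 hC), fun p hm => h4 p (hp.mem_iff.2 hm)⟩

/-- births are replaced by handles -/
theorem GMovie.trade {g n : ℕ} {D E : Code} (h : GMovie g n D E) : GMovie (g + n) 0 D E := by
  induction h with
  | refl D h => exact .refl D h
  | step h hs _ ih => exact ih.step h hs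
  | @birth g n D E h b hb _ ih =>
    obtain ⟨⟨x, b'⟩, hC, hb'⟩ := hb
    simp only at hb'
    subst hb'
    obtain ⟨R₁, R₂, rfl⟩ := List.append_of_mem hC
    have hp : (R₁ ++ (x, b') :: R₂).Perm ((x, b') :: (R₁ ++ R₂)) := List.perm_middle
    have h1 : Classical ((x, b') :: (R₁ ++ R₂)) := classical_perm hp h
    have hq : Classical ((x, b') :: ([], b') :: (R₁ ++ R₂)) := by
      refine ⟨⟨?_, ?_⟩, ?_⟩
      · simpa [passes] using h1.1.1
      · simpa [passes] using h1.1.2
      · intro back front h2 h3
        obtain ⟨u, h4, h5⟩ := h1.2 back front (fun C hC => h2 C (by simp at hC ⊢; tauto))
          (fun p hm => h3 p (by simpa [passes] using hm))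
        refine ⟨u, fun C hC => ?_, fun p hm => h5 p (by simpa [passes] using hm)⟩
        simp only [List.mem_cons] at hC
        rcases hC with rfl | rfl | hC
        · exact h4 _ (by simp)
        · exact ⟨(0, 0), rfl⟩
        · exact h4 _ (by simp at hC ⊢; tauto)
    have hr : ((x, b') :: ([], b') :: (R₁ ++ R₂)).Perm (([], b') :: (R₁ ++ (x, b') :: R₂)) :=
      (List.Perm.swap _ _ _).trans (hp.symm.cons _)
    have h6 := (ih.step hq (.perm _ _ hr))
    have h7 : GMovie (g + n + 1) 0 ((x ++ [], b') :: (R₁ ++ R₂)) E :=
      GMovie.handle x [] b' (by simpa using h1) h6
    rw [List.append_nil] at h7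
    exact h7.step h (.perm _ _ hp)
  | @handle g n R E x y b h _ ih =>
    have := GMovie.handle x y b h ih
    rwa [show g + n + 1 = g + 1 + n by omega] at this

/-- Let the knot with Gauss code `w` bound a surface `F` in the 4-ball given by a movie which has `g`
handles and `n` births before the link `D`, whose components bound disjoint surfaces in the part of
the 4-ball inside `D`. Let `A` be a set of double curves of the projection of these surfaces (those
with colours outside `Z`) which contains all double curves meeting `D`, such that through each triple
point inside `D` there pass none, one or three double curves (branches) of `A`. Suppose that the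
triple points with three branches in `A` can be divided into blocks with numbers (the `p`-th one is in
the block with number `b p`), such that each block is joined with the blocks with greater numbers by
at most one double arc, and each block consists of one triple point or is thin (see `Blocks`,
`Thin`). Suppose moreover that, if a component is cut by a handle inside `D`, then one of the two new
components passes only through crossings not in `A`. Then the knot bounds a ribbon surface of genus
`g + n`: neither the handles nor the births inside `D` are counted. In particular, if `F` has the
slice genus and `n = 0`, then the ribbon genus of the knot equals its slice genus.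

For example, the condition on blocks is satisfied if the graph, whose vertices are the triple points
and whose edges are the double arcs joining them, has no loops, no multiple edges and no triangles,
and at no triple point double arcs ending in branch points belong to all three double curves through
it. It is also satisfied if this graph is a forest with arbitrary loops. -/
theorem result (w : List Pass) (g n : ℕ) (Z : ℕ → Prop) (D : Code) (R : List Trp) (b : ℕ → ℕ)
    (h₁ : GMovie g n [(w, 0)] D) (hD : (D.map Prod.snd).Nodup)
    (h₂ : AMovie true Z D R) (hR : Blocks R b)
    (hZ : ∀ p ∈ passes D, ¬Z (colour p.crossing)) : GMovie (g + n) 0 [(w, 0)] [] := by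
  have h3 : Movie true false D [] := movie_of_blocks h₂ hR hZ hD
  have h4 : GMovie 0 0 D [] :=
    GMovie.of_movie h3 (.refl [] (classical_empty (by simp [passes])))
  suffices h : ∀ {g n : ℕ} {A B E : Code}, GMovie g n A B → GMovie 0 0 B E → GMovie g n A E from
    (h h₁ h4).trade
  intro g n A B E h h'
  induction h with
  | refl D h => exact h'
  | step h hs _ ih => exact (ih h').step h hs
  | birth h b hb _ ih => exact GMovie.birth h b hb (ih h')
  | handle x y b h _ ih => exact GMovie.handle x y b h (ih h')

end Pool.Agent.Results.MP_177a0e_gt.ArcBlocks
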