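import Pool.Agent.V11206.CvG

/-!
Ribbon genus and slice genus. The movies here go from the link into the 4-ball, so that births of
components are the local maxima of the distance from the centre of the 4-ball, and the saddles which
cut a component into two components bounding the same piece of the remaining surface (`handle`) are
counted by the genus. Every crossing belongs to a double arc of the projection (a component of the
set of double points which are not triple points), named by its colour. Six double arcs end at a
triple point, if an arc both whose ends are there counts twice.
-/

namespace Pool.Agent.Results.MP_177a0e_gt.ClassCharges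

open Pool.Agent.Y468.SR Pool.Agent.Y874.TP Pool.Agent.V11206

/-- `GMovie g n D D'`: a movie from the classical link `D` to the classical link `D'` with `g` handles
and `n` births. Thus `GMovie g n [(w, 0)] []` says that the knot with Gauss code `w` bounds a surface
of genus `g` in the 4-ball with `n` local maxima of the distance from the centre, so that it is a
ribbon surface of genus `g` if `n = 0`. -/
inductive GMovie : ℕ → ℕ → Code → Code → Prop
  | refl (D : Code) (h : Classical D) : GMovie 0 0 D D
  | step {g n : ℕ} {D D' E : Code} (h : Classical D) (hs : Step true false D D')
      (hm : GMovie g n D' E) : GMovie g n D E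
  | birth {g n : ℕ} {D E : Code} (h : Classical D) (b : ℕ) (hb : ∃ C ∈ D, C.2 = b)
      (hm : GMovie g n (([], b) :: D) E) : GMovie g (n + 1) D E
  | handle {g n : ℕ} {R E : Code} (x y : List Pass) (b : ℕ) (h : Classical ((x ++ y, b) :: R))
      (hm : GMovie g n ((x, b) :: (y, b) :: R) E) : GMovie (g + 1) n ((x ++ y, b) :: R) E

theorem GMovie.of_movie {g n : ℕ} {D D' E : Code} (h : Movie true false D D')
    (hm : GMovie g n D' E) : GMovie g n D E := by
  induction h using Relation.ReflTransGen.head_induction_on with
  | refl => exact hm
  | head h _ ih => exact ih.step h.1 h.2.2

theorem classical_perm {D D' : Code} (h : D.Perm D') (hD : Classical D) : Classical D' := by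
  have hp : (passes D).Perm (passes D') := h.flatMap_right _
  refine ⟨⟨fun p hm => hp.mem_iff.1 (hD.1.1 p (hp.mem_iff.2 hm)),
    (hp.map _).nodup_iff.1 hD.1.2⟩, fun back front h1 h2 => ?_⟩
  obtain ⟨u, h3, h4⟩ := hD.2 back front (fun C hC => h1 C (h.mem_iff.1 hC))
    (fun p hm => h2 p (hp.mem_iff.1 hm))
  exact ⟨u, fun C hC => h3 C (h.mem_iff.2 hC), fun p hm => h4 p (hp.mem_iff.2 hm)⟩

/-- births are replaced by handles -/
theorem GMovie.trade {g n : ℕ} {D E : Code} (h : GMovie g n D E) : GMovie (g + n) 0 D E := by
  induction h with
  | refl D h => exact .refl D h
  | step h hs _ ih => exact ih.step h hs
  | @birth g n D E h b hb _ ih =>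
    obtain ⟨⟨x, b'⟩, hC, hb'⟩ := hb
    simp only at hb'
    subst hb'
    obtain ⟨R₁, R₂, rfl⟩ := List.append_of_mem hC
    have hp : (R₁ ++ (x, b') :: R₂).Perm ((x, b') :: (R₁ ++ R₂)) := List.perm_middle
    have h1 : Classical ((x, b') :: (R₁ ++ R₂)) := classical_perm hp h
    have hq : Classical ((x, b') :: ([], b') :: (R₁ ++ R₂)) := by
      refine ⟨⟨?_, ?_⟩, ?_⟩
      · simpa [passes] using h1.1.1
      · simpa [passes] using h1.1.2
      · intro back front h2 h3
        obtain ⟨u, h4, h5⟩ := h1.2 back front (fun C hC => h2 C (by simp at hC ⊢; tauto))
          (fun p hm => h3 p (by simpa [passes] using hm))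
        refine ⟨u, fun C hC => ?_, fun p hm => h5 p (by simpa [passes] using hm)⟩
        simp only [List.mem_cons] at hC
        rcases hC with rfl | rfl | hC
        · exact h4 _ (by simp)
        · exact ⟨(0, 0), rfl⟩
        · exact h4 _ (by simp at hC ⊢; tauto)
    have hr : ((x, b') :: ([], b') :: (R₁ ++ R₂)).Perm (([], b') :: (R₁ ++ (x, b') :: R₂)) :=
      (List.Perm.swap _ _ _).trans (hp.symm.cons _)
    have h6 := (ih.step hq (.perm _ _ hr))
    have h7 : GMovie (g + n + 1) 0 ((x ++ [], b') :: (R₁ ++ R₂)) E :=
      GMovie.handle x [] b' (by simpa using h1) h6
    rw [List.append_nil] at h7
    exact h7.step h (.perm _ _ hp)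
  | @handle g n R E x y b h _ ih =>
    have := GMovie.handle x y b h ih
    rwa [show g + n + 1 = g + 1 + n by omega] at this

/-- Let the knot with Gauss code `w` bound a surface `F` in the 4-ball given by a movie which has `g`
handles and `n` births before the link `D`, whose components bound disjoint surfaces in the part of
the 4-ball inside `D`. Let `A` be a set of double curves of the projection of these surfaces (those
with colours outside `Z`) which contains all double curves meeting `D`, such that through each triple
point inside `D` there pass none, one or three double curves (branches) of `A`. Suppose that the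
corners of the triple points with three branches in `A` have charges as in `Charges`, for some classes
`κ` of double arcs: the charge of a closed chain of `n ≤ 3` corners (which may bound a region with `n`
corners of the complement of the double curves in the surfaces) is at least `4 - n`, and the charge of
all corners exceeds the number of corners both ends of which are free by at most three. No charge is
needed for the regions which admit a reduction: the bigons with sides starting and ending on double
curves of the same kind (the two triple points annihilate), and the small regions at one triple point
which is isolated or has all ends in one class. Suppose moreover that, if a component is cut by a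
handle inside `D`, then one of the two new components passes only through crossings not in `A`. Then
the knot bounds a ribbon surface of genus `g + n`: neither the handles nor the births inside `D` are
counted. In particular, if `F` has the slice genus and `n = 0`, then the ribbon genus of the knot
equals its slice genus.

An end of a double arc at a triple point is free if the double arc leads to the link `D`. For example,
by `charges_of_loose` the condition on charges holds if at each triple point at most as many of the
eight corners in the top and bottom sheets have no free end as there are corners with two free ends: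
if `a`, `b`, `c` are the numbers of free ends of the double curves of the top and middle, top and
bottom, middle and bottom sheets, this says `2a + 4b + 2c + ac ≥ 8`. This is so if both ends of the
double curve of the top and bottom sheets are free, or if each of the three double curves has a free
end. -/
theorem result (w : List Pass) (g n : ℕ) (Z : ℕ → Prop) (D : Code) (R : List Trp)
    (κ : ℕ → ℕ) (x : ℕ → ℕ → ℕ → ℕ)
    (h₁ : GMovie g n [(w, 0)] D) (hD : (D.map Prod.snd).Nodup)
    (h₂ : AMovie true Z D R) (hR : Charges R κ x)
    (hZ : ∀ p ∈ passes D, ¬Z (colour p.crossing)) : GMovie (g + n) 0 [(w, 0)] [] := by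
  have h3 : Movie true false D [] := movie_of_charges h₂ hR hZ hD
  have h4 : GMovie 0 0 D [] :=
    GMovie.of_movie h3 (.refl [] (classical_empty (by simp [passes])))
  suffices h : ∀ {g n : ℕ} {A B E : Code}, GMovie g n A B → GMovie 0 0 B E → GMovie g n A E from
    (h h₁ h4).trade
  intro g n A B E h h'
  induction h with
  | refl D h => exact h'
  | step h hs _ ih => exact (ih h').step h hs
  | birth h b hb _ ih => exact GMovie.birth h b hb (ih h')
  | handle x y b h _ ih => exact GMovie.handle x y b h (ih h')

end Pool.Agent.Results.MP_177a0e_gt.ClassCharges
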