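import Pool.Agent.V11206.Few

/-!
Ribbon genus and slice genus. The movies here go from the link into the 4-ball, so that births of
components are the local maxima of the distance from the centre of the 4-ball, and the saddles which
cut a component into two components bounding the same piece of the remaining surface (`handle`) are
counted by the genus. Every crossing belongs to a double curve of the projection, named by its
colour; branch points are allowed only on double curves with even colours.
-/

namespace Pool.Agent.Results.MP_177a0e_gt.FewTriplePoints

open Pool.Agent.Y468.SR Pool.Agent.Y874.TP Pool.Agent.V11206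

/-- `GMovie g n D D'`: a movie from the classical link `D` to the classical link `D'` with `g` handles
and `n` births. Thus `GMovie g n [(w, 0)] []` says that the knot with Gauss code `w` bounds a surface
of genus `g` in the 4-ball with `n` local maxima of the distance from the centre, so that it is a
ribbon surface of genus `g` if `n = 0`. -/
inductive GMovie : ℕ → ℕ → Code → Code → Prop
  | refl (D : Code) (h : Classical D) : GMovie 0 0 D D
  | step {g n : ℕ} {D D' E : Code} (h : Classical D) (hs : Step true false D D')
      (hm : GMovie g n D' E) : GMovie g n D E
  | birth {g n : ℕ} {D E : Code} (h : Classical D) (b : ℕ) (hb : ∃ C ∈ D, C.2 = b)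
      (hm : GMovie g n (([], b) :: D) E) : GMovie g (n + 1) D E
  | handle {g n : ℕ} {R E : Code} (x y : List Pass) (b : ℕ) (h : Classical ((x ++ y, b) :: R))
      (hm : GMovie g n ((x, b) :: (y, b) :: R) E) : GMovie (g + 1) n ((x ++ y, b) :: R) E

theorem GMovie.of_movie {g n : ℕ} {D D' E : Code} (h : Movie true false D D')
    (hm : GMovie g n D' E) : GMovie g n D E := by
  induction h using Relation.ReflTransGen.head_induction_on with
  | refl => exact hm
  | head h _ ih => exact ih.step h.1 h.2.2

theorem classical_perm {D D' : Code} (h : D.Perm D') (hD : Classical D) : Classical D' := by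
  have hp : (passes D).Perm (passes D') := h.flatMap_right _
  refine ⟨⟨fun p hm => hp.mem_iff.1 (hD.1.1 p (hp.mem_iff.2 hm)),
    (hp.map _).nodup_iff.1 hD.1.2⟩, fun back front h1 h2 => ?_⟩
  obtain ⟨u, h3, h4⟩ := hD.2 back front (fun C hC => h1 C (h.mem_iff.1 hC))
    (fun p hm => h2 p (hp.mem_iff.1 hm))
  exact ⟨u, fun C hC => h3 C (h.mem_iff.2 hC), fun p hm => h4 p (hp.mem_iff.2 hm)⟩

/-- births are replaced by handles -/
theorem GMovie.trade {g n : ℕ} {D E : Code} (h : GMovie g n D E) : GMovie (g + n) 0 D E := by
  induction h with
  | refl D h => exact .refl D h
  | step h hs _ ih => exact ih.step h hs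
  | @birth g n D E h b hb _ ih =>
    obtain ⟨⟨x, b'⟩, hC, hb'⟩ := hb
    simp only at hb'
    subst hb'
    obtain ⟨R₁, R₂, rfl⟩ := List.append_of_mem hC
    have hp : (R₁ ++ (x, b') :: R₂).Perm ((x, b') :: (R₁ ++ R₂)) := List.perm_middle
    have h1 : Classical ((x, b') :: (R₁ ++ R₂)) := classical_perm hp h
    have hq : Classical ((x, b') :: ([], b') :: (R₁ ++ R₂)) := by
      refine ⟨⟨?_, ?_⟩, ?_⟩
      · simpa [passes] using h1.1.1
      · simpa [passes] using h1.1.2
      · intro back front h2 h3
        obtain ⟨u, h4, h5⟩ := h1.2 back front (fun C hC => h2 C (by simp at hC ⊢; tauto))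
          (fun p hm => h3 p (by simpa [passes] using hm))
        refine ⟨u, fun C hC => ?_, fun p hm => h5 p (by simpa [passes] using hm)⟩
        simp only [List.mem_cons] at hC
        rcases hC with rfl | rfl | hC
        · exact h4 _ (by simp)
        · exact ⟨(0, 0), rfl⟩
        · exact h4 _ (by simp at hC ⊢; tauto)
    have hr : ((x, b') :: ([], b') :: (R₁ ++ R₂)).Perm (([], b') :: (R₁ ++ (x, b') :: R₂)) :=
      (List.Perm.swap _ _ _).trans (hp.symm.cons _)
    have h6 := (ih.step hq (.perm _ _ hr))
    have h7 : GMovie (g + n + 1) 0 ((x ++ [], b') :: (R₁ ++ R₂)) E :=
      GMovie.handle x [] b' (by simpa using h1) h6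
    rw [List.append_nil] at h7
    exact h7.step h (.perm _ _ hp)
  | @handle g n R E x y b h _ ih =>
    have := GMovie.handle x y b h ih
    rwa [show g + n + 1 = g + 1 + n by omega] at this

/-- Let the knot with Gauss code `w` bound a surface `F` in the 4-ball given by a movie which has `g`
handles and `n` births before the link `D`, whose components bound disjoint surfaces in the part of
the 4-ball inside `D`. Let `A` be a set of double curves of the projection of these surfaces (those
with colours outside `Z`) which contains all double curves meeting `D`. Suppose that through each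
triple point inside `D` there pass none, one or three double curves (branches) of `A`, and that there
are at most three triple points with three branches in `A`; `R` is the list of these triple points,
given by the three colours. Suppose moreover that, if a component is cut by a handle inside `D`, then
one of the two new components passes only through crossings not in `A`. Then the knot bounds a ribbon
surface of genus `g + n`: neither the handles nor the births inside `D` are counted. In particular, if
`F` has the slice genus and `n = 0`, then the ribbon genus of the knot equals its slice genus. For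
example, this holds if there are no handles and at most three triple points inside `D` (then all
colours are even and `Z` is empty). -/
theorem result (w : List Pass) (g n : ℕ) (Z : ℕ → Prop) (D : Code) (R : List (ℕ × ℕ × ℕ))
    (h₁ : GMovie g n [(w, 0)] D) (hD : (D.map Prod.snd).Nodup)
    (h₂ : TMovie true Z D R) (hR : R.length ≤ 3)
    (hZ : ∀ p ∈ passes D, ¬Z (colour p.crossing)) : GMovie (g + n) 0 [(w, 0)] [] := by
  have h3 : Movie true false D [] := movie_of_tmovie3 h₂ hR hZ hD
  have h4 : GMovie 0 0 D [] :=
    GMovie.of_movie h3 (.refl [] (classical_empty (by simp [passes])))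
  suffices h : ∀ {g n : ℕ} {A B E : Code}, GMovie g n A B → GMovie 0 0 B E → GMovie g n A E from
    (h h₁ h4).trade
  intro g n A B E h h'
  induction h with
  | refl D h => exact h'
  | step h hs _ ih => exact (ih h').step h hs
  | birth h b hb _ ih => exact GMovie.birth h b hb (ih h')
  | handle x y b h _ ih => exact GMovie.handle x y b h (ih h')

end Pool.Agent.Results.MP_177a0e_gt.FewTriplePoints
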